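import Pool.Agent.W242.TDF.Span

/-!
# Counting powers
-/

set_option autoImplicit false

namespace Pool.Agent.W242.TDF

open Polynomial Module
open Pool.Agent.W243.TD
open Pool.Agent.W242.GG

theorem card_le_span (N : ℕ) (E : Finset ℕ) (S : Set ℚ[X]) (hS : ∀ P ∈ S, P.natDegree ≤ N)
    (hE : ∀ n ∈ E, (X : ℚ[X]) ^ n ∈ S) : E.card ≤ finrank ℚ (Submodule.span ℚ S) := by
  have h1 : Submodule.span ℚ S ≤ degreeLT ℚ (N + 1) := by
    apply Submodule.span_le.2
    intro P hP
    change P ∈ degreeLT ℚ (N + 1)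
    rw [mem_degreeLT]
    exact lt_of_le_of_lt degree_le_natDegree (by exact_mod_cast Nat.lt_succ_of_le (hS P hP))
  have := finite_degreeLT (k := ℚ) (N + 1)
  have hf : FiniteDimensional ℚ (Submodule.span ℚ S) := Submodule.finiteDimensional_of_le h1
  have h2 : LinearIndependent ℚ (fun n : E => (X : ℚ[X]) ^ (n : ℕ)) := by
    have h3 := (Polynomial.basisMonomials ℚ).linearIndependent
    have h4 : LinearIndependent ℚ (fun n : ℕ => (X : ℚ[X]) ^ n) := by
      convert h3 using 1
      funext n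
      simp [Polynomial.X_pow_eq_monomial]
    exact h4.comp _ Subtype.val_injective
  have h5 : Submodule.span ℚ (Set.range (fun n : E => (X : ℚ[X]) ^ (n : ℕ))) ≤
      Submodule.span ℚ S := by
    apply Submodule.span_mono
    rintro _ ⟨n, rfl⟩
    exact hE n n.2
  have h6 := Submodule.finrank_mono h5
  rw [finrank_span_eq_card h2] at h6
  simpa using h6

open Classical in
/-- exponentials of powers over `ℚ(t)`; `e ^ y` is algebraic over `ℚ(t)` -/
theorem count1 {t y : ℂ} (ht : Transcendental ℚ t) (hy : y ≠ 0)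
    (hya : IsAlgebraic (IntermediateField.adjoin ℚ {t}) y)
    (hy1 : IsAlgebraic (IntermediateField.adjoin ℚ {t}) (Complex.exp y)) (N : ℕ) :
    (((Finset.Icc 1 N).filter (fun n : ℕ => ¬ AlgebraicIndependent ℚ
      ![t, Complex.exp (y * t ^ n)])).card + 1) ^ 2 ≤ 4 * N + 1 := by
  set E0 := (Finset.Icc 1 N).filter (fun n : ℕ => ¬ AlgebraicIndependent ℚ
      ![t, Complex.exp (y * t ^ n)]) with hE0
  have h0 : 0 ∉ E0 := by simp [hE0]
  have h1 : E0.card + 1 = (insert 0 E0).card := by rw [Finset.card_insert_of_notMem h0]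
  rw [h1]
  have hS : ∀ P ∈ {P : ℚ[X] | P.natDegree ≤ N ∧
      IsAlgebraic (IntermediateField.adjoin ℚ {t}) (Complex.exp (y * aeval t P))},
      P.natDegree ≤ N ∧
      IsAlgebraic (IntermediateField.adjoin ℚ {t}) (Complex.exp (y * aeval t P)) := fun P hP => hP
  refine (Nat.pow_le_pow_left (card_le_span N (insert 0 E0) _ (fun P hP => (hS P hP).1) ?_)
    2).trans (span_sq ht hy hya N _ hS)
  intro n hn
  refine ⟨?_, ?_⟩
  · rw [natDegree_X_pow]
    rcases Finset.mem_insert.1 hn with rfl | hn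
    · omega
    · simp only [hE0, Finset.mem_filter, Finset.mem_Icc] at hn; exact hn.1.2
  · rw [map_pow, aeval_X]
    rcases Finset.mem_insert.1 hn with rfl | hn
    · rw [pow_zero, mul_one]; exact hy1
    · simp only [hE0, Finset.mem_filter] at hn
      exact dep_alg ht hn.2

open Classical in
/-- exponentials of powers over `ℚ(t)`, any multiplier; `e ^ y` is algebraic over `ℚ(t)` -/
theorem count2 {t y : ℂ} (ht : Transcendental ℚ t) (hy : y ≠ 0)
    (hy1 : IsAlgebraic (IntermediateField.adjoin ℚ {t}) (Complex.exp y)) (N : ℕ) :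
    (((Finset.Icc 1 N).filter (fun n : ℕ => ¬ AlgebraicIndependent ℚ
      ![t, Complex.exp (y * t ^ n)])).card + 2) ^ 2 ≤ 8 * N + 4 := by
  set E0 := (Finset.Icc 1 N).filter (fun n : ℕ => ¬ AlgebraicIndependent ℚ
      ![t, Complex.exp (y * t ^ n)]) with hE0
  have h0 : 0 ∉ E0 := by simp [hE0]
  have h1 : E0.card + 2 = (insert 0 E0).card + 1 := by rw [Finset.card_insert_of_notMem h0]
  rw [h1]
  have hS : ∀ P ∈ {P : ℚ[X] | P.natDegree ≤ N ∧
      IsAlgebraic (IntermediateField.adjoin ℚ {t}) (Complex.exp (y * aeval t P))},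
      P.natDegree ≤ N ∧
      IsAlgebraic (IntermediateField.adjoin ℚ {t}) (Complex.exp (y * aeval t P)) := fun P hP => hP
  refine (Nat.pow_le_pow_left (Nat.succ_le_succ (card_le_span N (insert 0 E0) _
    (fun P hP => (hS P hP).1) ?_)) 2).trans (span_sq2 ht hy N _ hS)
  intro n hn
  refine ⟨?_, ?_⟩
  · rw [natDegree_X_pow]
    rcases Finset.mem_insert.1 hn with rfl | hn
    · omega
    · simp only [hE0, Finset.mem_filter, Finset.mem_Icc] at hn; exact hn.1.2
  · rw [map_pow, aeval_X]
    rcases Finset.mem_insert.1 hn with rfl | hn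
    · rw [pow_zero, mul_one]; exact hy1
    · simp only [hE0, Finset.mem_filter] at hn
      exact dep_alg ht hn.2

end Pool.Agent.W242.TDF
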