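import Pool.Agent.W243.TD.Rat
import Pool.Agent.W242.TDF.Count

/-!
# Rational functions of bounded degree: statement with algebraic dependence
-/

set_option autoImplicit false

namespace Pool.Agent.W242.TDF

open Polynomial
open Pool.Agent.W243.TD
open Pool.Agent.W242.GG

theorem ratfun {t y : ℂ} (ht : Transcendental ℚ t) (hy : y ≠ 0) {N D : ℕ} (hD : 1 ≤ D)
    (P Q : Fin N → ℚ[X]) (hP : ∀ i, (P i).natDegree ≤ D) (hQ : ∀ i, (Q i).natDegree ≤ D)
    (hQ0 : ∀ i, Q i ≠ 0)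
    (hli : LinearIndependent ℚ (fun i => aeval t (P i) / aeval t (Q i)))
    (he : ∀ i, ¬ AlgebraicIndependent ℚ
      ![t, Complex.exp (y * (aeval t (P i) / aeval t (Q i)))]) :
    N ≤ 8 * D - 2 ∧ (¬ AlgebraicIndependent ℚ ![t, y] → N ≤ 4 * D) := by
  have h := rat_list' ht hy hD P Q hP hQ hQ0 hli (fun i => dep_alg ht (he i))
  exact ⟨h.1, fun hya => h.2 (dep_alg ht hya)⟩

end Pool.Agent.W242.TDF
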