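import Pool.Agent.W242.TDF.Count

/-!
# Counting powers, exponent zero included
-/

set_option autoImplicit false

namespace Pool.Agent.W242.TDF

open Polynomial Module
open Pool.Agent.W243.TD
open Pool.Agent.W242.GG

open Classical in
theorem count0 {t y : ℂ} (ht : Transcendental ℚ t) (hy : y ≠ 0)
    (hya : IsAlgebraic (IntermediateField.adjoin ℚ {t}) y) (N : ℕ) (E : Finset ℕ)
    (hE : ∀ n ∈ E, n ≤ N ∧ IsAlgebraic (IntermediateField.adjoin ℚ {t})
      (Complex.exp (y * t ^ n))) : E.card ^ 2 ≤ 4 * N + 1 := by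
  have hS : ∀ P ∈ {P : ℚ[X] | P.natDegree ≤ N ∧
      IsAlgebraic (IntermediateField.adjoin ℚ {t}) (Complex.exp (y * aeval t P))},
      P.natDegree ≤ N ∧
      IsAlgebraic (IntermediateField.adjoin ℚ {t}) (Complex.exp (y * aeval t P)) := fun P hP => hP
  refine (Nat.pow_le_pow_left (card_le_span N E _ (fun P hP => (hS P hP).1) ?_)
    2).trans (span_sq ht hy hya N _ hS)
  intro n hn
  refine ⟨?_, ?_⟩
  · rw [natDegree_X_pow]; exact (hE n hn).1
  · rw [map_pow, aeval_X]; exact (hE n hn).2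

end Pool.Agent.W242.TDF
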