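import Pool.Agent.W242.TDF.Count0

/-!
# The family `e ^ (y / (1 - s t))`
-/

set_option autoImplicit false

namespace Pool.Agent.W242.TDF

open Polynomial Module
open Pool.Agent.W243.TD
open Pool.Agent.W242.GG

/-- the linear factor `1 - s X` -/
noncomputable def lf (s : ℚ) : ℚ[X] := 1 - C s * X

theorem lf_eval (s x : ℚ) : (lf s).eval x = 1 - s * x := by simp [lf]

theorem lf_ne (s : ℚ) : lf s ≠ 0 := by
  intro h
  have := lf_eval s 0
  rw [h] at this
  simp at this

theorem lf_deg (s : ℚ) : (lf s).natDegree ≤ 1 := by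
  unfold lf
  refine (natDegree_sub_le _ _).trans ?_
  rw [natDegree_one]
  exact max_le (by norm_num) ((natDegree_C_mul_le s X).trans natDegree_X_le)

/-- the product of the factors of the other elements -/
noncomputable def oth (S : Finset ℚ) (s : ℚ) : ℚ[X] := ∏ r ∈ S.erase s, lf r

theorem oth_deg {S : Finset ℚ} {s : ℚ} (hs : s ∈ S) : (oth S s).natDegree ≤ S.card - 1 := by
  refine (natDegree_prod_le _ _).trans ?_
  refine (Finset.sum_le_sum (fun r _ => lf_deg r)).trans ?_
  rw [Finset.sum_const, smul_eq_mul, mul_one, Finset.card_erase_of_mem hs]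

theorem oth_ne (S : Finset ℚ) (s : ℚ) : oth S s ≠ 0 := Finset.prod_ne_zero_iff.2 fun r _ => lf_ne r

theorem oth_zero {S : Finset ℚ} {s r : ℚ} (hr : r ∈ S) (hrs : r ≠ s) (hr0 : r ≠ 0) :
    (oth S s).eval (1 / r) = 0 := by
  unfold oth
  rw [eval_prod]
  refine Finset.prod_eq_zero (Finset.mem_erase.2 ⟨hrs, hr⟩) ?_
  rw [lf_eval, mul_one_div_cancel hr0, sub_self]

theorem oth_self {S : Finset ℚ} {r : ℚ} (hr0 : r ≠ 0) : (oth S r).eval (1 / r) ≠ 0 := by
  unfold oth
  rw [eval_prod]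
  refine Finset.prod_ne_zero_iff.2 fun s hs => ?_
  rw [lf_eval]
  intro h
  have h1 : s * (1 / r) = 1 := by linarith
  have h2 : s = r := by field_simp at h1; exact h1
  exact (Finset.mem_erase.1 hs).1 h2

theorem oth_li (S : Finset ℚ) : LinearIndependent ℚ (fun s : S => oth S (s : ℚ)) := by
  rw [Fintype.linearIndependent_iff]
  intro g hg
  have key : ∀ r : S, (r : ℚ) ≠ 0 → g r = 0 := by
    intro r hr
    have h1 := congrArg (fun P : ℚ[X] => P.eval (1 / (r : ℚ))) hg
    simp only [eval_finsetSum, eval_smul, smul_eq_mul, eval_zero] at h1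
    rw [Finset.sum_eq_single r] at h1
    · exact (mul_eq_zero.1 h1).resolve_right (oth_self hr)
    · intro s _ hs
      rw [oth_zero r.2 (fun h => hs (Subtype.ext h.symm)) hr, mul_zero]
    · intro h; exact absurd (Finset.mem_univ _) h
  intro r
  by_cases hr : (r : ℚ) = 0
  · rw [Finset.sum_eq_single r] at hg
    · exact (smul_eq_zero.1 hg).resolve_right (oth_ne _ _)
    · intro s _ hs
      have : (s : ℚ) ≠ 0 := fun h => hs (Subtype.ext (h.trans hr.symm))
      rw [key s this, zero_smul]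
    · intro h; exact absurd (Finset.mem_univ _) h
  · exact key r hr

theorem lf_aeval (t : ℂ) (s : ℚ) : aeval t (lf s) = 1 - s * t := by
  simp [lf]

theorem lf_aeval_ne {t : ℂ} (ht : Transcendental ℚ t) (s : ℚ) : aeval t (lf s) ≠ 0 := by
  intro h
  exact lf_ne s ((transcendental_iff_injective.1 ht) (by rw [h, map_zero]))

theorem frac_eq {t : ℂ} (ht : Transcendental ℚ t) (y : ℂ) {S : Finset ℚ} {s : ℚ} (hs : s ∈ S) :
    y / aeval t (∏ r ∈ S, lf r) * aeval t (oth S s) = y / (1 - s * t) := by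
  have h1 : ∏ r ∈ S, lf r = lf s * oth S s := (Finset.mul_prod_erase S lf hs).symm
  have h2 := lf_aeval_ne ht s
  have h3 : aeval t (oth S s) ≠ 0 := by
    intro h
    exact oth_ne S s ((transcendental_iff_injective.1 ht) (by rw [h, map_zero]))
  rw [h1, map_mul, ← lf_aeval]
  field_simp

theorem prod_ne {t : ℂ} (ht : Transcendental ℚ t) (S : Finset ℚ) :
    aeval t (∏ r ∈ S, lf r) ≠ 0 := by
  rw [map_prod]
  exact Finset.prod_ne_zero_iff.2 fun r _ => lf_aeval_ne ht r

theorem frac_set {t y : ℂ} (ht : Transcendental ℚ t) (S : Finset ℚ)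
    (hS : ∀ s ∈ S, IsAlgebraic (IntermediateField.adjoin ℚ {t}) (Complex.exp (y / (1 - s * t)))) :
    ∀ P ∈ Set.range (fun s : S => oth S (s : ℚ)), P.natDegree ≤ S.card - 1 ∧
      IsAlgebraic (IntermediateField.adjoin ℚ {t})
        (Complex.exp (y / aeval t (∏ r ∈ S, lf r) * aeval t P)) := by
  rintro _ ⟨s, rfl⟩
  refine ⟨oth_deg s.2, ?_⟩
  simp only
  rw [frac_eq ht y s.2]
  exact hS s s.2

theorem aeval_al (t : ℂ) (P : ℚ[X]) :
    IsAlgebraic (IntermediateField.adjoin ℚ {t}) (aeval t P) := aeval_alg (self_alg t) P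

theorem frac_three {t y : ℂ} (ht : Transcendental ℚ t) (hy : y ≠ 0)
    (hya : IsAlgebraic (IntermediateField.adjoin ℚ {t}) y) (S : Finset ℚ)
    (hS : ∀ s ∈ S, IsAlgebraic (IntermediateField.adjoin ℚ {t})
      (Complex.exp (y / (1 - s * t)))) : S.card ≤ 3 := by
  have h1 := span_sq ht (div_ne_zero hy (prod_ne ht S)) (hya.mul (aeval_al t _).inv)
    (S.card - 1) _ (frac_set ht S hS)
  rw [finrank_span_eq_card (oth_li S), Fintype.card_coe] at h1
  by_contra hc
  obtain ⟨k, hk⟩ : ∃ k, S.card = k + 4 := ⟨S.card - 4, by omega⟩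
  rw [hk] at h1
  have h2 : k + 4 - 1 = k + 3 := by omega
  rw [h2] at h1
  nlinarith

theorem frac_five {t y : ℂ} (ht : Transcendental ℚ t) (hy : y ≠ 0) (S : Finset ℚ)
    (hS : ∀ s ∈ S, IsAlgebraic (IntermediateField.adjoin ℚ {t})
      (Complex.exp (y / (1 - s * t)))) : S.card ≤ 5 := by
  have h1 := span_sq2 ht (div_ne_zero hy (prod_ne ht S)) (S.card - 1) _ (frac_set ht S hS)
  rw [finrank_span_eq_card (oth_li S), Fintype.card_coe] at h1
  by_contra hc
  obtain ⟨k, hk⟩ : ∃ k, S.card = k + 6 := ⟨S.card - 6, by omega⟩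
  rw [hk] at h1
  have h2 : k + 6 - 1 = k + 5 := by omega
  rw [h2] at h1
  nlinarith

end Pool.Agent.W242.TDF
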