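import Pool.Agent.W243.TD.Main
import Pool.Agent.W242.GG.PolyDim2
import Pool.Agent.W242.GG.LogSqrt

/-!
# Spans of exceptional polynomials: square root bounds
-/

set_option autoImplicit false

namespace Pool.Agent.W242.TDF

open Polynomial Module
open Pool.Agent.W243.TD
open Pool.Agent.W242.GG

theorem span_prop {t y : ℂ} (n : ℕ) (S : Set ℚ[X])
    (hS : ∀ P ∈ S, P.natDegree ≤ n ∧
      IsAlgebraic (IntermediateField.adjoin ℚ {t}) (Complex.exp (y * aeval t P))) :
    (∀ P ∈ Submodule.span ℚ S, P.natDegree ≤ n) ∧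
    (∀ P ∈ Submodule.span ℚ S, Al t (Complex.exp (y * aeval t P))) := by
  constructor
  · have h1 : Submodule.span ℚ S ≤ degreeLE ℚ (n : WithBot ℕ) := by
      apply Submodule.span_le.2
      intro P hP
      change P ∈ degreeLE ℚ (n : WithBot ℕ)
      rw [mem_degreeLE]
      exact degree_le_of_natDegree_le (hS P hP).1
    intro P hP
    have := h1 hP
    rw [mem_degreeLE] at this
    exact natDegree_le_of_degree_le this
  · have h1 : Submodule.span ℚ S ≤ polyG (Gth t) y t := by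
      apply Submodule.span_le.2
      intro P hP
      exact (hS P hP).2
    intro P hP
    exact h1 hP

/-- dependence over `ℚ(t)`, multiplier algebraic over `ℚ(t)` -/
theorem span_sq {t y : ℂ} (ht : Transcendental ℚ t) (hy : y ≠ 0)
    (hya : IsAlgebraic (IntermediateField.adjoin ℚ {t}) y) (n : ℕ) (S : Set ℚ[X])
    (hS : ∀ P ∈ S, P.natDegree ≤ n ∧
      IsAlgebraic (IntermediateField.adjoin ℚ {t}) (Complex.exp (y * aeval t P))) :
    finrank ℚ (Submodule.span ℚ S) ^ 2 ≤ 4 * n + 1 :=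
  fam1 t y ht hy hya n _ (span_prop n S hS).1 (span_prop n S hS).2

theorem opt {w n : ℕ} (h : ∀ m : ℕ, m * w + m ≤ n + 2 * m ^ 2) : (w + 1) ^ 2 ≤ 8 * n + 4 := by
  obtain ⟨q, hq⟩ : ∃ q, w + 1 = 4 * q ∨ w + 1 = 4 * q + 1 ∨ w + 1 = 4 * q + 2 ∨
    w + 1 = 4 * q + 3 := ⟨(w + 1) / 4, by omega⟩
  rcases hq with hq | hq | hq | hq
  · have h1 := h q
    have h2 : q * w + q = q * (w + 1) := by ring
    rw [h2, hq] at h1
    rw [hq]; nlinarith
  · have h1 := h q
    have h2 : q * w + q = q * (w + 1) := by ring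
    rw [h2, hq] at h1
    rw [hq]; nlinarith
  · have h1 := h q
    have h2 : q * w + q = q * (w + 1) := by ring
    rw [h2, hq] at h1
    rw [hq]; nlinarith
  · have h1 := h (q + 1)
    have h2 : (q + 1) * w + (q + 1) = (q + 1) * (w + 1) := by ring
    rw [h2, hq] at h1
    rw [hq]; nlinarith

/-- dependence over `ℚ(t)`, arbitrary multiplier -/
theorem span_sq2 {t y : ℂ} (ht : Transcendental ℚ t) (hy : y ≠ 0) (n : ℕ) (S : Set ℚ[X])
    (hS : ∀ P ∈ S, P.natDegree ≤ n ∧
      IsAlgebraic (IntermediateField.adjoin ℚ {t}) (Complex.exp (y * aeval t P))) :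
    (finrank ℚ (Submodule.span ℚ S) + 1) ^ 2 ≤ 8 * n + 4 :=
  opt (fam2 t y ht hy n _ (span_prop n S hS).1 (span_prop n S hS).2)

end Pool.Agent.W242.TDF
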